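import Mathlib
import Pool.Agent.Helper17.CR.Stmts

set_option autoImplicit false

namespace Pool.Agent.Helper27.CR

open Pool.Agent.Helper17.CR Polynomial

universe u

theorem cong_split {T : Type u} [Fintype T] [DecidableEq T] (M : Matrix T T OO) :
    ∃ r : Multiset OO, r.map (algebraMap OO ℂ) = (M.map (algebraMap OO ℂ)).charpoly.roots ∧
      M.charpoly = (r.map (fun a => X - C a)).prod := by
  have hmap : (M.map (algebraMap OO ℂ)).charpoly = M.charpoly.map (algebraMap OO ℂ) :=
    Matrix.charpoly_map M (algebraMap OO ℂ)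
  have hmon : M.charpoly.Monic := Matrix.charpoly_monic M
  have H : ∀ x ∈ (M.charpoly.map (algebraMap OO ℂ)).roots, x ∈ OO := by
    intro x hx
    have h1 : (M.charpoly.map (algebraMap OO ℂ)).eval x = 0 :=
      (Polynomial.mem_roots'.1 hx).2
    have h2 : IsIntegral OO x := ⟨M.charpoly, hmon, by rw [← Polynomial.eval_map]; exact h1⟩
    have h3 : IsIntegral ℤ x := isIntegral_trans x h2
    exact h3
  let r : Multiset OO := (M.charpoly.map (algebraMap OO ℂ)).roots.pmap (fun x hx => (⟨x, hx⟩ : OO)) H
  have hr : r.map (algebraMap OO ℂ) = (M.charpoly.map (algebraMap OO ℂ)).roots := by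
    simp only [r]
    rw [Multiset.map_pmap]
    have : ∀ (s : Multiset ℂ) (h : ∀ x ∈ s, x ∈ OO),
        Multiset.pmap (fun (x : ℂ) (hx : x ∈ OO) => (algebraMap OO ℂ) (⟨x, hx⟩ : OO)) s h = s := by
      intro s h
      have h1 := Multiset.pmap_eq_map (fun x : ℂ => x ∈ OO) (fun x : ℂ => x) s h
      rw [Multiset.map_id'] at h1
      exact h1
    exact this _ _
  refine ⟨r, by rw [hr, hmap], ?_⟩
  have hinj : Function.Injective (algebraMap OO ℂ) := Subtype.val_injective
  apply Polynomial.map_injective _ hinj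
  rw [Polynomial.map_multiset_prod, Multiset.map_map]
  have h4 : ((Polynomial.map (algebraMap OO ℂ)) ∘ fun a : OO => X - C a) =
      (fun x : ℂ => X - C x) ∘ (algebraMap OO ℂ) := by
    funext a
    simp
  rw [h4, ← Multiset.map_map, hr]
  have h5 := IsAlgClosed.splits (M.charpoly.map (algebraMap OO ℂ))
  have h6 := h5.eq_prod_roots_of_monic (hmon.map _)
  exact h6

theorem st_CONG : ST_CONG.{u} := by
  intro T _ _ F _ φ M M' h
  obtain ⟨r, hr, hp⟩ := cong_split M
  obtain ⟨r', hr', hp'⟩ := cong_split M'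
  refine ⟨r, r', hr, hr', ?_⟩
  have h1 : M.charpoly.map φ = M'.charpoly.map φ := by
    rw [← Matrix.charpoly_map, ← Matrix.charpoly_map, h]
  have h2 : ∀ s : Multiset OO, ((s.map (fun a => X - C a)).prod).map φ =
      ((s.map φ).map (fun a => X - C a)).prod := by
    intro s
    rw [Polynomial.map_multiset_prod, Multiset.map_map, Multiset.map_map]
    congr 1
    apply Multiset.map_congr rfl
    intro a _
    simp
  rw [hp, hp', h2, h2] at h1
  have h3 := congrArg Polynomial.roots h1
  rwa [Polynomial.roots_multiset_prod_X_sub_C, Polynomial.roots_multiset_prod_X_sub_C] at h3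

end Pool.Agent.Helper27.CR
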