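import Mathlib
import Pool.Agent.Helper17.CR.Stmts

set_option autoImplicit false

namespace Pool.Agent.Helper27.CR

open Pool.Agent.Helper17.CR

universe u

theorem fib_mod {G : Type u} [Monoid G] (g : G) (m : ℕ) (h : g ^ m = 1) (k : ℕ) :
    g ^ (k % m) = g ^ k := by
  conv_rhs => rw [← Nat.mod_add_div k m, pow_add, pow_mul, h, one_pow, mul_one]

def fib_setoid {X : Type u} (g : Equiv.Perm X) (m : ℕ) (hm : 0 < m) (h : g ^ m = 1) :
    Setoid X where
  r x y := ∃ i : ℕ, (g ^ i) x = y
  iseqv := by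
    refine ⟨fun x => ⟨0, by simp⟩, ?_, ?_⟩
    · rintro x y ⟨i, hi⟩
      refine ⟨i * (m - 1), ?_⟩
      rw [← hi, ← Equiv.Perm.mul_apply, ← pow_add]
      have h1 : i * (m - 1) + i = m * i := by
        obtain ⟨k, rfl⟩ : ∃ k, m = k + 1 := ⟨m - 1, by omega⟩
        simp only [Nat.add_sub_cancel]; ring
      rw [h1, pow_mul, h, one_pow]; rfl
    · rintro x y z ⟨i, hi⟩ ⟨j, hj⟩
      refine ⟨j + i, ?_⟩
      rw [pow_add, Equiv.Perm.mul_apply, hi, hj]

theorem st_FIB : ST_FIB.{u} := by
  classical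
  intro X _ _ g m _ hm hfree
  have hm0 : 0 < m := Nat.pos_of_ne_zero (NeZero.ne m)
  let S := fib_setoid g m hm0 hm
  let T := Quotient S
  let F : T × ZMod m → X := fun p => (g ^ (p.2.val)) p.1.out
  have hcls : ∀ p : T × ZMod m, (Quotient.mk S (F p)) = p.1 := by
    intro p
    have h1 : Quotient.mk S p.1.out = p.1 := Quotient.out_eq _
    conv_rhs => rw [← h1]
    exact (Quotient.sound (s := S) ⟨p.2.val, rfl⟩).symm
  have key : ∀ (z : X) (a b : ℕ), a ≤ b → b < m → (g ^ a) z = (g ^ b) z → a = b := by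
    intro z a b hab hb h
    have h1 : (g ^ (b - a)) ((g ^ a) z) = (g ^ a) z := by
      rw [← Equiv.Perm.mul_apply, ← pow_add, Nat.sub_add_cancel hab, h]
    have h2 := hfree _ _ h1
    rcases Nat.eq_zero_or_pos (b - a) with h3 | h3
    · omega
    · have := Nat.le_of_dvd h3 h2
      omega
  have hinj : Function.Injective F := by
    intro p p' h
    have h1 : p.1 = p'.1 := by rw [← hcls p, ← hcls p', h]
    have h2 : (g ^ (p.2.val)) p.1.out = (g ^ (p'.2.val)) p.1.out := by
      have : F p = F p' := h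
      simp only [F] at this
      rw [← h1] at this
      exact this
    have h3 : p.2.val = p'.2.val := by
      rcases le_total p.2.val p'.2.val with h4 | h4
      · exact key _ _ _ h4 (ZMod.val_lt _) h2
      · exact (key _ _ _ h4 (ZMod.val_lt _) h2.symm).symm
    exact Prod.ext h1 (ZMod.val_injective m h3)
  have hsurj : Function.Surjective F := by
    intro x
    obtain ⟨i, hi⟩ : S ((Quotient.mk S x).out) x := Quotient.exact (Quotient.out_eq _)
    refine ⟨(Quotient.mk S x, (i : ZMod m)), ?_⟩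
    simp only [F]
    rw [ZMod.val_natCast, fib_mod g m hm, hi]
  let f : X ≃ T × ZMod m := (Equiv.ofBijective F ⟨hinj, hsurj⟩).symm
  refine ⟨T, Quotient.fintype S, inferInstance, f, ?_⟩
  intro x
  obtain ⟨p, rfl⟩ := hsurj x
  have hf : ∀ p, f (F p) = p := fun p => (Equiv.ofBijective F ⟨hinj, hsurj⟩).symm_apply_apply p
  rw [hf]
  have h1 : g (F p) = F (p.1, p.2 + 1) := by
    simp only [F]
    have h2 : (p.2 + 1).val = (p.2.val + 1) % m := by
      have : p.2 + 1 = ((p.2.val + 1 : ℕ) : ZMod m) := by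
        push_cast; rw [ZMod.natCast_zmod_val]
      rw [this, ZMod.val_natCast]
    rw [h2, fib_mod g m hm, pow_succ', Equiv.Perm.mul_apply]
  rw [h1, hf]

end Pool.Agent.Helper27.CR
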