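import Mathlib
import Pool.Agent.Helper17.CR.Stmts

set_option autoImplicit false

namespace Pool.Agent.Helper27.CR

open Pool.Agent.Helper17.CR

theorem inj_fac {R : Type} [CommRing R] [IsDomain R] (x y : R) (h : x ≠ y) :
    ∀ m : ℕ, x ^ (2 ^ m) = y ^ (2 ^ m) → ∃ i : ℕ, i < m ∧ x ^ (2 ^ i) + y ^ (2 ^ i) = 0 := by
  intro m
  induction m with
  | zero => intro hm; exact absurd (by simpa using hm) h
  | succ m ih =>
    intro hm
    have h1 : (x ^ (2 ^ m) - y ^ (2 ^ m)) * (x ^ (2 ^ m) + y ^ (2 ^ m)) = 0 := by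
      have : (x ^ (2 ^ m) - y ^ (2 ^ m)) * (x ^ (2 ^ m) + y ^ (2 ^ m))
          = x ^ (2 ^ (m + 1)) - y ^ (2 ^ (m + 1)) := by
        rw [pow_succ 2 m, pow_mul, pow_mul]; ring
      rw [this, hm, sub_self]
    rcases mul_eq_zero.1 h1 with h2 | h2
    · obtain ⟨i, hi, h3⟩ := ih (sub_eq_zero.1 h2)
      exact ⟨i, by omega, h3⟩
    · exact ⟨m, by omega, h2⟩

theorem st_INJ : ST_INJ := by
  intro q F _ _ φ n c hq hq2 hqn x y hx hy hxy
  by_contra hne
  have hpow : x ^ (2 ^ (c + 1)) = y ^ (2 ^ (c + 1)) := by rw [hx, hy]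
  obtain ⟨i, hi, h0⟩ := inj_fac x y hne (c + 1) hpow
  have h1 : φ x ^ (2 ^ i) + φ y ^ (2 ^ i) = 0 := by
    have := congrArg φ h0
    simpa using this
  rw [hxy, ← two_mul] at h1
  have h2 : (2 : F) ≠ 0 := by
    intro h
    have h3 : ((2 : ℕ) : F) = 0 := by exact_mod_cast h
    have h4 := (CharP.cast_eq_zero_iff F q 2).1 h3
    have h5 := (Nat.prime_dvd_prime_iff_eq hq Nat.prime_two).1 h4
    exact hq2 h5
  have h3 : φ y ^ (2 ^ i) = 0 := (mul_eq_zero.1 h1).resolve_left h2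
  have h4 : φ y = 0 := pow_eq_zero_iff (by positivity) |>.1 h3
  have h5 : φ y ^ (2 ^ (c + 1)) = (n : F) ^ (2 ^ c) := by
    have := congrArg φ hy
    simpa using this
  rw [h4, zero_pow (by positivity)] at h5
  have h6 : (n : F) = 0 := pow_eq_zero_iff (by positivity) |>.1 h5.symm
  exact hqn ((CharP.intCast_eq_zero_iff F q n).1 h6)

end Pool.Agent.Helper27.CR
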