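import Mathlib
import Pool.Agent.Helper17.CR.Stmts

set_option autoImplicit false

namespace Pool.Agent.Helper27.CR

open Pool.Agent.Helper17.CR Finset

universe u

theorem mult_nat {T : Type u} {R : Type} (m : ℕ) (B : Matrix (T × ZMod m) (T × ZMod m) R)
    (hB : Circ m B) (a b : T) (j : ℕ) : ∀ (u w : ZMod m),
    B (a, u + (j : ZMod m)) (b, w + (j : ZMod m)) = B (a, u) (b, w) := by
  induction j with
  | zero => intro u w; simp
  | succ j ih =>
    intro u w
    have h := hB (a, u + (j : ZMod m)) (b, w + (j : ZMod m))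
    simp only at h
    rw [← ih u w, ← h]
    push_cast
    rw [add_assoc, add_assoc]

theorem mult_shift {T : Type u} {R : Type} (m : ℕ) [NeZero m]
    (B : Matrix (T × ZMod m) (T × ZMod m) R)
    (hB : Circ m B) (a b : T) (e d : ZMod m) :
    B (a, e) (b, d + e) = B (a, 0) (b, d) := by
  have h := mult_nat m B hB a b e.val 0 d
  rw [ZMod.natCast_zmod_val, zero_add] at h
  exact h

theorem st_MULT : ST_MULT.{u} := by
  intro T _ _ R _ m _ χ A B hB
  constructor
  · ext t t'
    rw [Matrix.mul_apply]
    simp only [hat]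
    have h1 : ∀ d : ZMod m, (A * B) (t, 0) (t', d) * χ d =
        ∑ s : T, ∑ e : ZMod m, A (t, 0) (s, e) * B (s, e) (t', d) * χ d := by
      intro d
      rw [Matrix.mul_apply, Fintype.sum_prod_type, Finset.sum_mul]
      refine Finset.sum_congr rfl fun s _ => ?_
      rw [Finset.sum_mul]
    rw [Finset.sum_congr rfl (fun d _ => h1 d), Finset.sum_comm]
    refine Finset.sum_congr rfl fun s _ => ?_
    rw [Finset.sum_comm, Finset.sum_mul]
    refine Finset.sum_congr rfl fun e _ => ?_
    rw [Finset.mul_sum]
    rw [← Equiv.sum_comp (Equiv.addRight e)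
      (fun d => A (t, 0) (s, e) * B (s, e) (t', d) * χ d)]
    refine Finset.sum_congr rfl fun d _ => ?_
    simp only [Equiv.coe_addRight]
    rw [mult_shift m B hB, AddChar.map_add_eq_mul]
    ring
  · ext t t'
    simp only [hat]
    rw [Finset.sum_eq_single (0 : ZMod m)]
    · rw [AddChar.map_zero_eq_one, mul_one]
      by_cases h : t = t'
      · subst h; simp
      · rw [Matrix.one_apply_ne h, Matrix.one_apply_ne]
        intro h2; exact h (Prod.ext_iff.1 h2).1
    · intro d _ hd
      rw [Matrix.one_apply_ne, zero_mul]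
      intro h2
      exact hd (Prod.ext_iff.1 h2).2.symm
    · intro h; exact absurd (Finset.mem_univ _) h

end Pool.Agent.Helper27.CR
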